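import Mathlib

set_option autoImplicit false

namespace Pool.Agent.Results.MP_453038_al.Subindex

open Cardinal

universe u

def Direct {G : Type u} [Group G] (A B : Set G) : Prop :=
  ∀ a ∈ A, ∀ a' ∈ A, ∀ b ∈ B, ∀ b' ∈ B, a * b = a' * b' → a = a' ∧ b = b'

def Subfactor {G : Type u} [Group G] (A B : Set G) : Prop := Maximal (Direct A) B

noncomputable def upper {G : Type u} [Group G] (A : Set G) : Cardinal.{u} :=
  ⨆ B : {B : Set G // Subfactor A B}, #B.1

noncomputable def lower {G : Type u} [Group G] (A : Set G) : Cardinal.{u} :=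
  sInf {k | ∃ B : Set G, Subfactor A B ∧ #B = k}

lemma gen {G : Type u} [Group G] (A : Set G) (H : Subgroup G) (c : G) (hc : c ∉ H)
    (h2 : c * c = 1) (hH : #H = #G) (h0 : ∃ h ∈ H, h ≠ 1)
    (hA : ∀ g, (∃ a ∈ A, ∃ a' ∈ A, a * g = a') ↔ g = 1 ∨ (g ∉ H ∧ g ≠ c)) :
    lower A = 2 ∧ upper A = #G := by
  have hd : ∀ B, Direct A B ↔ ∀ b ∈ B, ∀ b' ∈ B, b ≠ b' → b * b'⁻¹ ∈ H ∨ b * b'⁻¹ = c := by
    intro B
    constructor
    · intro h b hb b' hb' hne
      by_contra hn
      push Not at hn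
      obtain ⟨a, ha, a', ha', e⟩ := (hA _).mpr (Or.inr hn)
      exact hne (h a ha a' ha' b hb b' hb' (by rw [← e]; group)).2
    · intro h a ha a' ha' b hb b' hb' e
      have : b = b' := by
        by_contra hne
        rcases (hA (b * b'⁻¹)).mp ⟨a, ha, a', ha', by rw [← mul_assoc, e]; group⟩ with h1 | h1
        · exact hne (mul_inv_eq_one.mp h1)
        · exact (h b hb b' hb' hne).elim h1.1 h1.2
      exact ⟨mul_right_cancel (this ▸ e), this⟩
  have c1 : c ≠ 1 := fun h => hc (h ▸ H.one_mem)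
  have ci : c⁻¹ = c := inv_eq_of_mul_eq_one_right h2
  have hp : ∀ b, Direct A {b, c * b} := fun b => (hd _).mpr (by
    rintro x (rfl | rfl) y (rfl | rfl) h <;> simp [ci] at h ⊢)
  have s1 : Subfactor A {1, c} := ⟨by simpa using hp 1, fun B hB hle x hx => by
    by_contra hn
    simp only [Set.mem_insert_iff, Set.mem_singleton_iff, not_or] at hn
    have e1 := (hd B).mp hB x hx 1 (hle (by simp)) hn.1
    have e2 := (hd B).mp hB x hx c (hle (by simp)) hn.2
    simp only [inv_one, mul_one, hn.2, or_false] at e1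
    rcases e2 with e2 | e2
    · exact hc (by simpa [ci] using H.mul_mem (H.inv_mem e1) e2)
    · exact hn.1 (by rw [mul_inv_eq_iff_eq_mul.mp e2, h2])⟩
  have s2 : Subfactor A H := ⟨(hd _).mpr fun b hb b' hb' _ => Or.inl (H.mul_mem hb (H.inv_mem hb')),
    fun B hB hle x hx => by
      by_contra hn
      obtain ⟨h, hh, h1⟩ := h0
      have k : ∀ y ∈ H, x * y⁻¹ = c := fun y hy =>
        ((hd B).mp hB x hx y (hle hy) fun e => hn (e ▸ hy)).resolve_left fun e =>
          hn (by simpa using H.mul_mem e hy)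
      exact h1 (by simpa using (k h hh).trans (k 1 H.one_mem).symm)⟩
  have m2 : ∀ b : G, #({b, c * b} : Set G) = 2 := fun b => by
    rw [mk_insert (by simpa using c1), mk_singleton, one_add_one_eq_two]
  constructor
  · refine le_antisymm (csInf_le' ⟨_, s1, by simpa using m2 1⟩) (le_csInf ⟨_, _, s1, rfl⟩ ?_)
    rintro _ ⟨B, hB, rfl⟩
    by_contra hn
    have h1 : B.Subsingleton := by
      rw [← Cardinal.mk_le_one_iff_set_subsingleton]
      exact not_lt.mp fun h => hn (Cardinal.two_le_iff_one_lt.mpr h)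
    obtain ⟨b, hb⟩ : ∃ b, B ⊆ {b} := by
      rcases h1.eq_empty_or_singleton with rfl | ⟨b, rfl⟩
      · exact ⟨1, Set.empty_subset _⟩
      · exact ⟨b, le_rfl⟩
    have := hb (hB.2 (hp b) (hb.trans (by simp)) (show c * b ∈ _ by simp))
    exact c1 (by simpa using this)
  · have : Nonempty {B : Set G // Subfactor A B} := ⟨⟨_, s2⟩⟩
    exact le_antisymm (ciSup_le fun B => mk_set_le _)
      (hH.symm.le.trans (le_ciSup (f := fun B : {B : Set G // Subfactor A B} => #B.1)
        bddAbove_of_small ⟨_, s2⟩))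

open Classical in
lemma model (F : Type u) [Field F] [Infinite F] (N : Type) [Group N] [Finite N]
    (hN : ∀ n : N, n ≠ 1 → ∃ m, m ≠ 1 ∧ m * n ≠ 1) :
    ∃ A : Set (Multiplicative (F × F × F × ZMod 2) × N), lower A = 2 ∧ upper A = #F := by
  let χ : N → F := fun m => if m = 1 then 1 else 0
  let v : F → F → F := fun x y => if y = 0 ∧ x ≠ 0 then x else 1
  let f : F → F → ZMod 2 → N → F := fun x y e m => x * y + χ m * x + if e = 0 then 0 else v x y
  let H : Subgroup (Multiplicative (F × F × F × ZMod 2) × N) :=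
    ((MonoidHom.snd (Multiplicative F) _).comp (MulEquiv.prodMultiplicative _ _).toMonoidHom).prodMap
      (MonoidHom.id N) |>.ker
  have hH : ∀ g, g ∈ H ↔ g.1.toAdd.2 = 0 ∧ g.2 = 1 := fun g => Prod.ext_iff
  have hG : #(Multiplicative (F × F × F × ZMod 2) × N) = #F := by
    have := Fintype.ofFinite N
    have k : ∀ n : ℕ, n ≠ 0 → #F * n = #F := fun n hn => Cardinal.mul_eq_left (aleph0_le_mk F)
      ((Cardinal.natCast_lt_aleph0).le.trans (aleph0_le_mk F)) (by exact_mod_cast hn)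
    have k2 : #F * 2 = #F := k 2 two_ne_zero
    simp [mk_prod, mul_eq_self (aleph0_le_mk F), ← mul_assoc, k2, k _ Fintype.card_ne_zero]
  rw [← hG]
  refine ⟨{g | g.1.toAdd.1 = f g.1.toAdd.2.1 g.1.toAdd.2.2.1 g.1.toAdd.2.2.2 g.2},
    gen _ H (Multiplicative.ofAdd (0, 0, 0, 1), 1) (by simp [hH]) ?_ ?_
    ⟨(Multiplicative.ofAdd (1, 0), 1), by simp [hH], by simp⟩ ?_⟩
  · simp [← ofAdd_add]; decide
  · refine le_antisymm (mk_set_le _) (hG ▸ mk_le_of_injective
      (f := fun x : F => (⟨(Multiplicative.ofAdd (x, 0), 1), by simp [hH]⟩ : H)) ?_)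
    intro x y h
    simpa using h
  rintro ⟨⟨h, a, b, e⟩, n⟩
  have hv : ∀ x y, v x y ≠ 0 := fun x y => by
    simp only [v]; split_ifs with h; exacts [h.2, one_ne_zero]
  have key : (∃ a_1 ∈ {g : Multiplicative (F × F × F × ZMod 2) × N |
      g.1.toAdd.1 = f g.1.toAdd.2.1 g.1.toAdd.2.2.1 g.1.toAdd.2.2.2 g.2}, ∃ a' ∈
      {g : Multiplicative (F × F × F × ZMod 2) × N |
      g.1.toAdd.1 = f g.1.toAdd.2.1 g.1.toAdd.2.2.1 g.1.toAdd.2.2.2 g.2},
      a_1 * (Multiplicative.ofAdd (h, a, b, e), n) = a') ↔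
      ∃ x y d m, f x y d m + h = f (x + a) (y + b) (d + e) (m * n) := by
    constructor
    · rintro ⟨⟨⟨z, x, y, d⟩, m⟩, h1, _, h2, rfl⟩
      exact ⟨x, y, d, m, (congrArg (· + h) h1.symm).trans h2⟩
    · rintro ⟨x, y, d, m, h1⟩
      exact ⟨(Multiplicative.ofAdd (f x y d m, x, y, d), m), rfl, _, h1, rfl⟩
  refine key.trans ?_
  change _ ↔ (Multiplicative.ofAdd (h, a, b, e), n) = 1 ∨
    ((Multiplicative.ofAdd (h, a, b, e), n) ∉ H ∧ (Multiplicative.ofAdd (h, a, b, e), n) ≠ _)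
  simp only [hH, Prod.mk_eq_one, ofAdd_eq_one, Prod.mk_eq_zero, toAdd_ofAdd, ne_eq, Prod.mk.injEq,
    EmbeddingLike.apply_eq_iff_eq]
  have he : ∀ e : ZMod 2, e = 0 ∨ e = 1 := by decide
  constructor
  · rintro ⟨x, y, d, m, h1⟩
    by_cases h2 : (a = 0 ∧ b = 0 ∧ e = 0) ∧ n = 1
    · obtain ⟨⟨rfl, rfl, rfl⟩, rfl⟩ := h2
      left
      simpa using h1
    · refine Or.inr ⟨h2, ?_⟩
      rintro ⟨⟨rfl, rfl, rfl, rfl⟩, rfl⟩
      rcases he d with rfl | rfl
      · exact hv x y (by simpa [f, eq_comm] using h1)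
      · exact hv x y (by simpa [f, show (1 : ZMod 2) + 1 = 0 by decide] using h1)
  · rintro (⟨⟨rfl, rfl, rfl, rfl⟩, rfl⟩ | ⟨h1, h2⟩)
    · exact ⟨0, 0, 0, 1, by simp⟩
    by_cases ha : a = 0
    swap
    · refine ⟨-a, (h - χ 1 * a - if e = 0 then 0 else 1) / a, 0, 1, ?_⟩
      simp only [f, v, neg_add_cancel, zero_add, ne_eq, not_true, and_false, if_true, if_false]
      field_simp
      ring
    subst ha
    by_cases h3 : ∃ m, b + χ (m * n) - χ m ≠ 0
    · obtain ⟨m, hm⟩ := h3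
      refine ⟨(h - if e = 0 then 0 else 1) / (b + χ (m * n) - χ m), 1 - b, 0, m, ?_⟩
      simp only [f, v, sub_add_cancel, zero_add, add_zero, one_ne_zero, false_and, if_true, if_false]
      field_simp
      ring
    push Not at h3
    have hn : n = 1 := by
      by_contra hn
      obtain ⟨m, m1, m2⟩ := hN n hn
      have e1 := h3 m
      have e2 := h3 1
      simp [χ, m1, m2, hn] at e1 e2
      simp [e1] at e2
    subst hn
    have hb : b = 0 := by simpa using h3 1
    subst hb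
    rcases he e with rfl | rfl
    · simp at h1
    · have : h ≠ 0 := by simpa using h2
      exact ⟨h, 0, 0, 1, by simp [f, v, this]⟩

theorem result (α : Cardinal.{u}) (hα : ℵ₀ ≤ α) :
    (∃ (G : Type u) (_ : CommGroup G) (A : Set G), lower A = 2 ∧ upper A = α) ∧
    (∃ (G : Type u) (_ : Group G) (A : Set G), (∃ x y : G, x * y ≠ y * x) ∧
      lower A = 2 ∧ upper A = α) := by
  induction α using Cardinal.inductionOn with | mk F =>
  have : Infinite F := Cardinal.infinite_iff.mpr hα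
  obtain ⟨_⟩ := Infinite.nonempty_field (α := F)
  constructor
  · obtain ⟨A, h⟩ := model F PUnit fun n hn => absurd rfl hn
    exact ⟨_, inferInstance, A, h⟩
  · obtain ⟨A, h⟩ := model F (Equiv.Perm (Fin 3)) (by decide)
    refine ⟨_, inferInstance, A, ⟨(1, Equiv.swap 0 1), (1, Equiv.swap 1 2), fun e => ?_⟩, h⟩
    exact absurd (show Equiv.swap (0 : Fin 3) 1 * Equiv.swap 1 2 = Equiv.swap 1 2 * Equiv.swap 0 1
      from congrArg Prod.snd e) (by decide)

end Pool.Agent.Results.MP_453038_al.Subindex
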